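import Pool.Agent.Helper5.TL.WrapQ

/-!
# Growth of virtually solvable linear groups which are not virtually polycyclic

Let `F` be any field and `S` a nonempty finite subset of `GL_d(F)` such that `⟨S⟩` is virtually
solvable. Then `⟨S⟩` is virtually nilpotent, or `F` has characteristic zero and `⟨S⟩` is virtually
polycyclic, or the exponential growth rate of `S` is at least `2 log 2 / (3 d ^ 2)`.
-/

namespace Pool.Agent.Results.MP_d69e80_al.LinearNotPolycyclic

open Pointwise Filter Topology

universe u

theorem result {F : Type u} [Field F] (d : ℕ)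
    [DecidableEq (GL (Fin d) F)] (S : Finset (GL (Fin d) F)) (hS : S.Nonempty)
    (hsol : ∃ H : Subgroup (Subgroup.closure (S : Set (GL (Fin d) F))),
      H.FiniteIndex ∧ Group.IsSolvable H) :
    ∃ ρ : ℝ, Tendsto (fun n : ℕ => Real.log ((S ^ n).card : ℝ) / n) atTop (𝓝 ρ) ∧
      ((∃ H : Subgroup (Subgroup.closure (S : Set (GL (Fin d) F))),
          H.FiniteIndex ∧ Group.IsNilpotent H) ∨
        (CharZero F ∧ ∃ H : Subgroup (Subgroup.closure (S : Set (GL (Fin d) F))),
          H.FiniteIndex ∧ Pool.Agent.Helper11.Gap.IsPolycyclic H) ∨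
        2 * Real.log 2 / (3 * d ^ 2) ≤ ρ) :=
  Pool.Agent.Helper5.TL.final_any d S hS hsol

end Pool.Agent.Results.MP_d69e80_al.LinearNotPolycyclic
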