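import Pool.Agent.Helper94.AN.Sol

/-!
# The growth of groups and Lehmer's problem

Let `S` be a finite symmetric subset of a group, `Q` a quotient of `⟨S⟩`, `H` a subgroup of finite
index `f` of `Q` and `P` a quotient of `H`.  Let

* `C = 8 (3 · 2 ^ c - 1)` if `P` has a normal subgroup `N` such that `P / N` is nilpotent of class
  at most `c` (that is, `γ_{c+1}(P) ≤ N`) and either `P / [N, N]` is not virtually nilpotent or `N`
  is nilpotent and `P` is not virtually nilpotent;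
* `C = 352` if `P' / P'''` is not virtually nilpotent, or `P''` is nilpotent (of any class) and `P'`
  is not virtually nilpotent.

Then the exponential growth rate `ρ` of `S` satisfies
`ρ ≥ (1 / (C (2 f - 1))) min(1, log M(λ))` for some algebraic unit `λ` which is not a root of
unity, where `M(λ)` is the Mahler measure of the minimal polynomial of `λ` over `ℤ`.

For `H = Q` (`f = 1`) and `C = 352`, or `c = 1` (`C = 40`), the constant is absolute.  Every finitely
generated solvable group `Q` which is not virtually nilpotent is covered by the first alternative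
(theorem `solvable`).
-/

namespace Pool.Agent.Results.MP_d69e80_al.MahlerClassThree

open Pointwise Filter Topology
open scoped commutatorElement

theorem result {Γ : Type*} [Group Γ] [DecidableEq Γ] (S : Finset Γ) (hsymm : ∀ s ∈ S, s⁻¹ ∈ S)
    {Q : Type*} [Group Q] (φ : Subgroup.closure (S : Set Γ) →* Q) (hφ : Function.Surjective φ)
    (H : Subgroup Q) (f : ℕ) (hf : 0 < f) (hH : H.index = f)
    {P : Type*} [Group P] (θ : H →* P) (hθ : Function.Surjective θ) (C : ℝ)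
    (h : (∃ N : Subgroup P, ∃ _ : N.Normal, ∃ c : ℕ, (⊤ : Subgroup P).lowerCentralSeries c ≤ N ∧
        C = 8 * (3 * 2 ^ c - 1) ∧
        ((¬ ∃ M : Subgroup (P ⧸ ⁅N, N⁆), M.FiniteIndex ∧ Group.IsNilpotent M) ∨
          (Group.IsNilpotent N ∧ ¬ ∃ M : Subgroup P, M.FiniteIndex ∧ Group.IsNilpotent M))) ∨
      (C = 352 ∧
        ((¬ ∃ M : Subgroup (commutator P ⧸ derivedSeries (commutator P) 2),
            M.FiniteIndex ∧ Group.IsNilpotent M) ∨
          (Group.IsNilpotent (derivedSeries P 2) ∧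
            ¬ ∃ M : Subgroup (commutator P), M.FiniteIndex ∧ Group.IsNilpotent M)))) :
    ∃ ρ : ℝ, Tendsto (fun n : ℕ => Real.log ((S ^ n).card : ℝ) / n) atTop (𝓝 ρ) ∧
      ∃ lam : ℂ, lam ≠ 0 ∧ IsIntegral ℤ lam ∧ IsIntegral ℤ lam⁻¹ ∧
        (∀ k : ℕ, 0 < k → lam ^ k ≠ 1) ∧
        (1 / (C * (2 * f - 1))) *
          min 1 (Real.log ((minpoly ℤ lam).map (Int.castRingHom ℂ)).mahlerMeasure) ≤ ρ :=
  Pool.Agent.Helper94.AN.final_five Pool.Agent.Helper94.AN.an_stmt S hsymm φ hφ H f hf hH θ hθ C h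

/-- Solvable groups (no solvability is needed): if `Q / Q⁽ᵏ⁺¹⁾` is not virtually nilpotent and `H`
is a subgroup of finite index `f` with `Q⁽ᵏ⁾ ≤ H` and `H / Q⁽ᵏ⁾` nilpotent of class at most `c`,
then the constant depends only on `c` and `f`.  Such `k`, `H`, `c` exist for every solvable `Q` which
is not virtually nilpotent: take `k` maximal with `Q / Q⁽ᵏ⁾` virtually nilpotent. -/
theorem solvable {Γ : Type*} [Group Γ] [DecidableEq Γ] (S : Finset Γ) (hsymm : ∀ s ∈ S, s⁻¹ ∈ S)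
    {Q : Type*} [Group Q] (φ : Subgroup.closure (S : Set Γ) →* Q) (hφ : Function.Surjective φ)
    (k : ℕ) (hk : ¬ ∃ M : Subgroup (Q ⧸ derivedSeries Q (k + 1)),
      M.FiniteIndex ∧ Group.IsNilpotent M)
    (H : Subgroup Q) (f : ℕ) (hf : 0 < f) (hH : H.index = f) (hle : derivedSeries Q k ≤ H) (c : ℕ)
    (hc : (⊤ : Subgroup H).lowerCentralSeries c ≤ (derivedSeries Q k).subgroupOf H) :
    ∃ ρ : ℝ, Tendsto (fun n : ℕ => Real.log ((S ^ n).card : ℝ) / n) atTop (𝓝 ρ) ∧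
      ∃ lam : ℂ, lam ≠ 0 ∧ IsIntegral ℤ lam ∧ IsIntegral ℤ lam⁻¹ ∧
        (∀ k : ℕ, 0 < k → lam ^ k ≠ 1) ∧
        (1 / ((8 * (3 * 2 ^ c - 1)) * (2 * f - 1))) *
          min 1 (Real.log ((minpoly ℤ lam).map (Int.castRingHom ℂ)).mahlerMeasure) ≤ ρ :=
  result S hsymm φ hφ H f hf hH (MonoidHom.id H) Function.surjective_id _
    (Or.inl ⟨(derivedSeries Q k).subgroupOf H, inferInstance, c, hc, rfl,
      Or.inl fun h => hk (Pool.Agent.Helper94.AN.vn_up H (by omega) k hle h)⟩)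

/-- The case `P = H = Q`, `f = 1` of derived length at most three, with one absolute constant. -/
theorem class_three {Γ : Type*} [Group Γ] [DecidableEq Γ] (S : Finset Γ)
    (hsymm : ∀ s ∈ S, s⁻¹ ∈ S) {Q : Type*} [Group Q]
    (φ : Subgroup.closure (S : Set Γ) →* Q) (hφ : Function.Surjective φ)
    (h3 : derivedSeries Q 3 = ⊥)
    (hnv : (¬ ∃ N : Subgroup (commutator Q), N.FiniteIndex ∧ Group.IsNilpotent N) ∨
      (¬ ∃ N : Subgroup (Q ⧸ derivedSeries Q 2), N.FiniteIndex ∧ Group.IsNilpotent N)) :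
    ∃ ρ : ℝ, Tendsto (fun n : ℕ => Real.log ((S ^ n).card : ℝ) / n) atTop (𝓝 ρ) ∧
      ∃ lam : ℂ, lam ≠ 0 ∧ IsIntegral ℤ lam ∧ IsIntegral ℤ lam⁻¹ ∧
        (∀ k : ℕ, 0 < k → lam ^ k ≠ 1) ∧
        (1 / 352) * min 1 (Real.log ((minpoly ℤ lam).map (Int.castRingHom ℂ)).mahlerMeasure) ≤ ρ := by
  have hid : Function.Surjective (⊤ : Subgroup Q).subtype := fun x => ⟨⟨x, Subgroup.mem_top x⟩, rfl⟩
  rcases hnv with hv | hv
  · obtain ⟨ρ, h1, lam, h2, h4, h5, h6, h7⟩ := result S hsymm φ hφ ⊤ 1 one_pos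
      Subgroup.index_top (⊤ : Subgroup Q).subtype hid 352
      (Or.inr ⟨rfl, Or.inr ⟨Pool.Agent.Helper94.GA.FI2.nil_of_three h3, hv⟩⟩)
    refine ⟨ρ, h1, lam, h2, h4, h5, h6, ?_⟩
    norm_num at h7 ⊢
    exact h7
  · obtain ⟨ρ, h1, lam, h2, h4, h5, h6, h7⟩ := result S hsymm φ hφ ⊤ 1 one_pos
      Subgroup.index_top (⊤ : Subgroup Q).subtype hid 40
      (Or.inl ⟨commutator Q, inferInstance, 1, le_rfl, by norm_num, Or.inl hv⟩)
    refine ⟨ρ, h1, lam, h2, h4, h5, h6, ?_⟩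
    have h8 : 0 ≤ min 1 (Real.log ((minpoly ℤ lam).map (Int.castRingHom ℂ)).mahlerMeasure) :=
      Pool.Agent.Helper94.GA.min_nonneg' h4
    norm_num at h7 ⊢
    linarith

end Pool.Agent.Results.MP_d69e80_al.MahlerClassThree
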