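import Pool.Agent.Helper84.RO.MainFI
import Pool.Agent.Helper29.RO.Alt
import Pool.Agent.Helper11.RO.PC

/-!
# A uniform growth gap for groups that are not polycyclic

Let `S` be a finite symmetric subset of a group, `Q` a quotient of `⟨S⟩`, `H` a subgroup of finite
index `f` of `Q` and `N` a normal subgroup of `H` such that the derived subgroup of `H ⧸ N` is
nilpotent (of any class). If `N` is not finitely generated, or if `N` is nilpotent and `H` is not
polycyclic, then the exponential growth rate `ρ` of `S` satisfies `ρ ≥ (log 2) / (328 (2 f - 1))`.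

For `H = Q` (`f = 1`) the bound is the absolute constant `(log 2) / 328`. It holds for all solvable
groups `Q` of derived length at most three which are not polycyclic (`N` the second derived
subgroup of `Q`).
-/

namespace Pool.Agent.Results.MP_d69e80_al.NonPolycyclicClassThree

open Pointwise Filter Topology
open Pool.Agent.Helper11.Gap (IsPolycyclic)

theorem result {Γ : Type*} [Group Γ] [DecidableEq Γ] (S : Finset Γ) (hsymm : ∀ s ∈ S, s⁻¹ ∈ S)
    {Q : Type*} [Group Q] (φ : Subgroup.closure (S : Set Γ) →* Q) (hφ : Function.Surjective φ)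
    (H : Subgroup Q) (f : ℕ) (hf : 0 < f) (hH : H.index = f) (N : Subgroup H) [hN : N.Normal]
    (hnil : Group.IsNilpotent (commutator (H ⧸ N)))
    (h : ¬ N.FG ∨ (Group.IsNilpotent N ∧ ¬ IsPolycyclic H)) :
    ∃ ρ : ℝ, Tendsto (fun n : ℕ => Real.log ((S ^ n).card : ℝ) / n) atTop (𝓝 ρ) ∧
      Real.log 2 / (328 * (2 * f - 1)) ≤ ρ := by
  rcases h with hfg | ⟨hNn, hnp⟩
  · exact Pool.Agent.Helper84.RO.main_fi S hsymm φ hφ H f hf hH N hnil hfg
  · have h1 : Group.FG (Subgroup.closure (S : Set Γ)) :=
      (Group.fg_iff_subgroup_fg _).2 ⟨S, rfl⟩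
    have h2 : Group.FG Q := Group.fg_of_surjective hφ
    have h3 : H.FiniteIndex := ⟨by rw [hH]; exact hf.ne'⟩
    have h4 : Group.FG H := inferInstance
    obtain ⟨M, hM, hMnil, hMfg⟩ := Pool.Agent.Helper29.RO.alt
      (fun Q _ _ A _ => Pool.Agent.Helper11.RO.PC A) N hNn hnil hnp
    exact Pool.Agent.Helper84.RO.main_fi S hsymm φ hφ H f hf hH M hMnil hMfg

end Pool.Agent.Results.MP_d69e80_al.NonPolycyclicClassThree
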