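import Pool.Agent.Helper49.RO.FI

/-!
# A growth gap for groups with a nilpotent quotient whose kernel is not finitely generated

Let `S` be a nonempty finite subset of a group, not assumed symmetric. Suppose that `⟨S⟩` has a
quotient `Q` with a subgroup `H` of finite index and a normal subgroup `N` of `H` such that `H ⧸ N`
is nilpotent (of any class) and `N` is not finitely generated. Then the exponential growth rate of
`S` is at least `(log 2) / (3 (2 f - 1))`, where `f` is the index of `H`; for `H = Q` this is the
absolute constant `(log 2) / 3`.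

The constant does not depend on the class: if `H ⧸ N` is nilpotent and `N` is not finitely
generated, then `N [H, H]` is not finitely generated
(`Pool.Agent.Helper49.RO.fg_of_nilpotent_quotient`), and its quotient is abelian.
-/

namespace Pool.Agent.Results.MP_d69e80_al.NotFGByNilpotent

open Pointwise Filter Topology

theorem result {Γ : Type*} [Group Γ] [DecidableEq Γ] (S : Finset Γ) (hS : S.Nonempty)
    {Q : Type*} [Group Q] (φ : Subgroup.closure (S : Set Γ) →* Q) (hφ : Function.Surjective φ)
    (H : Subgroup Q) (f : ℕ) (hf : 0 < f) (hH : H.index = f) (N : Subgroup H) [hN : N.Normal]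
    (hnil : Group.IsNilpotent (H ⧸ N)) (hfg : ¬ N.FG) :
    ∃ ρ : ℝ, Tendsto (fun n : ℕ => Real.log ((S ^ n).card : ℝ) / n) atTop (𝓝 ρ) ∧
      Real.log 2 / (3 * (2 * f - 1)) ≤ ρ := by
  have hfin : H.FiniteIndex := ⟨by rw [hH]; exact hf.ne'⟩
  rw [← hH]
  exact Pool.Agent.Helper49.RO.main_fi S hS φ hφ H N hnil hfg

end Pool.Agent.Results.MP_d69e80_al.NotFGByNilpotent
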